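import Pool.Agent.H525.EX.Stm2

set_option autoImplicit false
set_option linter.unusedSectionVars false

namespace Pool.Agent.H694.EX

open Polynomial UniqueFactorizationMonoid
open Pool.Agent.H985.Chow (mob)
open Pool.Agent.H525.QF Pool.Agent.H525.EX
open scoped Classical

section
variable {K : Type} [Field K] [Fintype K]

theorem F_two (m : ℕ) (v : K[X] × K[X]) (h1 : v.1 ∈ mon K m) (h2 : v.2 ∈ lt K m) :
    (F v).Monic ∧ (F v).natDegree = 4 * m := by
  rw [mem_mon] at h1
  rw [mem_lt] at h2
  have hm4 : (v.1 ^ 4).Monic := h1.1.pow 4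
  have hd4 : (v.1 ^ 4).natDegree = 4 * m := by rw [h1.1.natDegree_pow, h1.2]
  have hlt : (X * v.2 ^ 4).degree < (v.1 ^ 4).degree := by
    by_cases h0 : v.2 = 0
    · rw [h0, zero_pow (by norm_num), mul_zero, degree_zero, bot_lt_iff_ne_bot]
      intro h3
      exact hm4.ne_zero (degree_eq_bot.1 h3)
    · have h3 : v.2.natDegree < m := by
        rw [degree_eq_natDegree h0] at h2
        exact_mod_cast h2
      have h4 : X * v.2 ^ 4 ≠ 0 := mul_ne_zero X_ne_zero (pow_ne_zero 4 h0)
      rw [degree_eq_natDegree h4, degree_eq_natDegree hm4.ne_zero, hd4,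
        natDegree_X_mul (pow_ne_zero 4 h0), natDegree_pow]
      have : 4 * v.2.natDegree + 1 < 4 * m := by omega
      exact_mod_cast this
  unfold F
  exact ⟨hm4.add_of_left hlt, by rw [natDegree_add_eq_left_of_degree_lt hlt, hd4]⟩

theorem mon_zero (p : K[X]) : p ∈ mon K 0 ↔ p = 1 := by
  rw [mem_mon]
  constructor
  · rintro ⟨h1, h2⟩
    exact h1.natDegree_eq_zero.1 h2
  · rintro rfl
    exact ⟨monic_one, natDegree_one⟩

theorem sm_eq (h : K[X] → ℕ → ℝ[X]) (N : ℕ) :
    sm (gII h) (N : ℤ) = ((Fintype.card K : ℝ) ^ N)⁻¹ * ∑ k ∈ Finset.range (4 * N + 2), GII h N k := by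
  rw [Finset.mul_sum]
  unfold sm
  symm
  apply Finset.sum_bij (fun (k : ℕ) _ => (k : ℤ) - N)
  · intro k hk
    have := Finset.mem_range.1 hk
    rw [Finset.mem_Icc]
    omega
  · intro a _ b _ hab
    have : (a : ℤ) - N = (b : ℤ) - N := hab
    omega
  · intro e he
    rw [Finset.mem_Icc] at he
    exact ⟨(e + N).toNat, by rw [Finset.mem_range]; omega, by omega⟩
  · intro k hk
    unfold gII
    rw [if_pos ⟨by omega, by omega⟩]
    have e1 : ((N : ℤ)).toNat = N := by omega
    have e2 : ((N : ℤ) + ((k : ℤ) - N)).toNat = k := by omega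
    rw [e1, e2]

end

theorem t_gn : Pool.Agent.H525.EX.S_gn := by
  intro href hev hpar K _ _ _ κ hκ h hR hV n
  rcases lt_or_ge n 0 with hn | hn
  · rw [if_neg (by omega)]
    unfold sm
    rw [Finset.Icc_eq_empty (by omega), Finset.sum_empty]
  obtain ⟨N, rfl⟩ : ∃ N : ℕ, n = (N : ℤ) := ⟨n.toNat, by omega⟩
  rw [sm_eq]
  have h1 : ∑ k ∈ Finset.range (4 * N + 2), GII h N k =
      ∑ j ∈ Finset.range (N + 1), ∑ G ∈ mon K j, ∑ v ∈ cII K (N - j),
        (if G ^ 2 * F v = 1 then (1 : ℝ) else 0) := by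
    unfold GII
    rw [Finset.sum_comm]
    apply Finset.sum_congr rfl
    intro j hj
    have hj' := Finset.mem_range.1 hj
    rw [Finset.sum_comm]
    apply Finset.sum_congr rfl
    intro G hG
    have hG' := mem_mon.1 hG
    rw [Finset.sum_comm]
    apply Finset.sum_congr rfl
    intro v hv
    unfold cII at hv
    rw [Finset.mem_filter, Finset.mem_product] at hv
    obtain ⟨⟨hv1, hv2⟩, hv3⟩ := hv
    obtain ⟨hF1, hF2⟩ := F_two (N - j) v hv1 hv2
    have hsq := ((hpar K κ hκ (N - j) v hv3).2 hv1 hv2).1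
    have hdeg := (href K ((-1) ^ κ) h hR G (F v) hG'.1 hF1 hsq).1
    rw [hG'.2, hF2] at hdeg
    have hval := (hev K h hV).1 (G ^ 2 * F v) ((hG'.1.pow 2).mul hF1)
    rw [← hval, eval_eq_sum_range' (n := 4 * N + 2) (by omega)]
    apply Finset.sum_congr rfl
    intro k _
    rw [one_pow, mul_one]
  rw [h1]
  by_cases hN : N = 0
  · subst hN
    rw [if_pos (by norm_num), pow_zero, inv_one, one_mul, zero_add, Finset.sum_range_one]
    have e1 : mon K 0 = {1} := by
      ext p
      rw [mon_zero, Finset.mem_singleton]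
    have e2 : cII K 0 = {((1 : K[X]), (0 : K[X]))} := by
      ext v
      unfold cII
      rw [Finset.mem_filter, Finset.mem_product, Finset.mem_singleton, mon_zero, mem_lt]
      constructor
      · rintro ⟨⟨h2, h3⟩, _⟩
        have : v.2 = 0 := by
          rw [← degree_eq_bot]
          by_contra h4
          have h5 : v.2 ≠ 0 := fun h6 => h4 (by rw [h6, degree_zero])
          rw [degree_eq_natDegree h5] at h3
          have h7 : v.2.natDegree < 0 := by exact_mod_cast h3
          omega
        exact Prod.ext h2 this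
      · rintro rfl
        refine ⟨⟨rfl, ?_⟩, isCoprime_one_left⟩
        rw [degree_zero]
        exact bot_lt_iff_ne_bot.2 (by simp)
    rw [e1, Finset.sum_singleton]
    simp only [Nat.sub_zero]
    rw [e2, Finset.sum_singleton, if_pos]
    unfold F
    simp
  · have hN' : ¬ ((N : ℤ) = 0) := by omega
    rw [if_neg hN']
    rw [Finset.sum_eq_zero, mul_zero]
    intro j hj
    apply Finset.sum_eq_zero
    intro G hG
    apply Finset.sum_eq_zero
    intro v hv
    have hj' := Finset.mem_range.1 hj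
    have hG' := mem_mon.1 hG
    unfold cII at hv
    rw [Finset.mem_filter, Finset.mem_product] at hv
    obtain ⟨⟨hv1, hv2⟩, _⟩ := hv
    obtain ⟨hF1, hF2⟩ := F_two (N - j) v hv1 hv2
    rw [if_neg]
    intro h1
    have h2 := congrArg natDegree h1
    rw [(hG'.1.pow 2).natDegree_mul hF1, hG'.1.natDegree_pow, hG'.2, hF2, natDegree_one] at h2
    omega

end Pool.Agent.H694.EX
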